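import Pool.Agent.T9h63.SH.Dens
import Pool.Agent.T9h63.SH.Expo

set_option autoImplicit false

open Set Pool.Agent.Results.MP_75a0ab_co.NotDense Pool.Agent.T9h63.SH

namespace Pool.Agent.Results.MP_75a0ab_co.ExponentialUpperBound

/-- `K` is smooth or strictly convex. -/
def SmoothOrStrict {d : ℕ} (K : SymBody d) : Prop :=
  IsSmooth (K.1 : Set (E d)) ∨ StrictConvex ℝ (K.1 : Set (E d))

/-- `V` is a separable Hadwiger configuration of `K`. -/
def IsConfig {d : ℕ} (K : SymBody d) (V : Finset (E d)) : Prop :=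
  IsSepHadwigerConfig (K.1 : Set (E d)) V

/-- The set of origin-symmetric convex bodies in dimension `d` whose separable Hadwiger
configurations all have at most `5 (11 / 8) ^ d` members. -/
def boundedBodies (d : ℕ) : Set (SymBody d) :=
  {K | ∀ V : Finset (E d), IsConfig K V → (V.card : ℝ) ≤ 5 * (11 / 8) ^ d}

lemma apply_eq_sum {d : ℕ} (F : E d →L[ℝ] ℝ) (x : E d) :
    ∑ k, F (EuclideanSpace.single k (1 : ℝ)) * x k = F x := by
  conv_rhs => rw [← (EuclideanSpace.basisFun (Fin d) ℝ).sum_repr x, map_sum]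
  refine Finset.sum_congr rfl fun k _ => ?_
  rw [map_smul, EuclideanSpace.basisFun_apply, EuclideanSpace.basisFun_repr, smul_eq_mul, mul_comm]

/-- the system of points and functionals of a separable configuration, in coordinates -/
lemma system {d : ℕ} (K : SymBody d) (hK : SmoothOrStrict K) {V : Finset (E d)}
    (hV : IsConfig K V) : ∃ F X : Fin V.card → Fin d → ℝ, (∀ i, ∑ k, F i k * X i k = 1) ∧
      ∀ i j, i ≠ j → -1 ≤ ∑ k, F i k * X j k ∧ ∑ k, F i k * X j k ≤ 0 := by
  obtain ⟨F, x, h1, h2⟩ := system_of_config K.1.convex K.1.isCompact K.2.1 K.2.2 hK hV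
  let e : Fin V.card ≃ V := V.equivFin.symm
  refine ⟨fun i k => F (e i) (EuclideanSpace.single k (1 : ℝ)), fun i k => x (e i) k, ?_, ?_⟩
  · intro i
    rw [apply_eq_sum]
    exact h1 _
  · intro i j hij
    rw [apply_eq_sum]
    exact h2 _ _ (fun h => hij (e.injective h))

/-- Let `K` be an origin-symmetric convex body in dimension `d` which is smooth or strictly
convex. Every separable Hadwiger configuration of `K`, with `N` members, satisfies
`N T ^ 2 ≤ D (T ^ 2 + N - 1)` for every `k`, where `D = (d + k choose k)` and `T` is the value at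
`3` of the Chebyshev polynomial of degree `k`, and `N ≤ 5 (11 / 8) ^ d`; the origin-symmetric
convex bodies with the last property are dense. -/
theorem result :
    (∀ (d : ℕ) (K : SymBody d), SmoothOrStrict K → ∀ V : Finset (E d), IsConfig K V → ∀ k : ℕ,
      (V.card : ℤ) * tt k ^ 2 ≤ ((d + k).choose k : ℤ) * (tt k ^ 2 + V.card - 1)) ∧
    (∀ (d : ℕ) (K : SymBody d), SmoothOrStrict K → K ∈ boundedBodies d) ∧
    ∀ d : ℕ, Dense (boundedBodies d) := by
  have hB : ∀ (d : ℕ) (K : SymBody d), SmoothOrStrict K → K ∈ boundedBodies d := by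
    intro d K hK V hV
    obtain ⟨F, X, h1, h2⟩ := system K hK hV
    have h3 := expo_bound F X h1 h2
    have h4 : (V.card : ℝ) * 8 ^ d ≤ 5 * 11 ^ d := by exact_mod_cast h3
    rw [div_pow, mul_div_assoc', le_div_iff₀ (by positivity)]
    exact h4
  refine ⟨?_, hB, fun d => dense_of_smooth fun K hK => hB d K (Or.inl hK)⟩
  intro d K hK V hV k
  obtain ⟨F, X, h1, h2⟩ := system K hK hV
  exact poly_bound F X h1 h2 k

end Pool.Agent.Results.MP_75a0ab_co.ExponentialUpperBound
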