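import Pool.Agent.T9h63.SH.Dens
import Pool.Agent.T9h93.SH.Rank
import Pool.Agent.T9h93.SH.Lower

set_option autoImplicit false

open Set Pool.Agent.Results.MP_75a0ab_co.NotDense Pool.Agent.T9h63.SH Pool.Agent.T9h93.SH

namespace Pool.Agent.Results.MP_75a0ab_co.SmoothBodies

lemma apply_eq_sum {d : ℕ} (F : E d →L[ℝ] ℝ) (x : E d) :
    ∑ k, F (EuclideanSpace.single k (1 : ℝ)) * x k = F x := by
  conv_rhs => rw [← (EuclideanSpace.basisFun (Fin d) ℝ).sum_repr x, map_sum]
  refine Finset.sum_congr rfl fun k _ => ?_
  rw [map_smul, EuclideanSpace.basisFun_apply, EuclideanSpace.basisFun_repr, smul_eq_mul, mul_comm]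

/-- the bound for the size of a separable configuration -/
lemma card_bound {d : ℕ} (K : SymBody d)
    (hK : IsSmooth (K.1 : Set (E d)) ∨ StrictConvex ℝ (K.1 : Set (E d))) {V : Finset (E d)}
    (hV : IsSepHadwigerConfig (K.1 : Set (E d)) V) : 8 * ((V.card : ℤ) - 4) ≤ d * V.card := by
  obtain ⟨F, x, h1, h2⟩ := system_of_config K.1.convex K.1.isCompact K.2.1 K.2.2 hK hV
  let e : Fin V.card ≃ V := V.equivFin.symm
  refine rank_bound (fun i k => F (e i) (EuclideanSpace.single k (1 : ℝ)))
    (fun i k => x (e i) k) ?_ ?_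
  · intro i
    rw [apply_eq_sum]
    exact h1 _
  · intro i j hij
    rw [apply_eq_sum]
    exact h2 _ _ (fun h => hij (e.injective h))

/-- `K` is smooth or strictly convex. -/
def SmoothOrStrict {d : ℕ} (K : SymBody d) : Prop :=
  IsSmooth (K.1 : Set (E d)) ∨ StrictConvex ℝ (K.1 : Set (E d))

/-- `V` is a separable Hadwiger configuration of `K`. -/
def IsConfig {d : ℕ} (K : SymBody d) (V : Finset (E d)) : Prop :=
  IsSepHadwigerConfig (K.1 : Set (E d)) V

/-- The set of origin-symmetric convex bodies in dimension `d` with separable Hadwiger number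
`n`. -/
def bodiesWith (d n : ℕ) : Set (SymBody d) :=
  {K | Hsep (K.1 : Set (E d)) = n}

/-- For every origin-symmetric convex body `K` in dimension `d` which is smooth or strictly
convex, every separable Hadwiger configuration of `K` has `N` members with `(8 - d) N ≤ 32`;
every such body in dimension five has separable Hadwiger number ten; and in dimension five the
origin-symmetric convex bodies with separable Hadwiger number ten are dense. -/
theorem result :
    (∀ (d : ℕ) (K : SymBody d), SmoothOrStrict K → ∀ V : Finset (E d), IsConfig K V →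
      (8 - (d : ℤ)) * V.card ≤ 32) ∧
    (∀ K : SymBody 5, SmoothOrStrict K → K ∈ bodiesWith 5 10) ∧
    Dense (bodiesWith 5 10) := by
  have hA : ∀ (d : ℕ) (K : SymBody d), SmoothOrStrict K →
      ∀ V : Finset (E d), IsConfig K V → (8 - (d : ℤ)) * V.card ≤ 32 := by
    intro d K hK V hV
    have := card_bound K hK hV
    linarith
  have hB : ∀ K : SymBody 5, SmoothOrStrict K → K ∈ bodiesWith 5 10 := by
    intro K hK
    refine le_antisymm ?_ ?_
    · refine iSup₂_le fun V hV => ?_
      have := hA 5 K hK V hV
      have h10 : V.card ≤ 10 := by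
        push_cast at this
        omega
      exact_mod_cast h10
    · have := two_mul_le 5 K
      calc ((10 : ℕ) : ℕ∞) = 2 * ((5 : ℕ) : ℕ∞) := by norm_num
        _ ≤ _ := this
  exact ⟨hA, hB, dense_of_smooth fun K hK => hB K (Or.inl hK)⟩

end Pool.Agent.Results.MP_75a0ab_co.SmoothBodies
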